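import Mathlib

/-!
In every family of five convex bodies in 3-space with pairwise disjoint interiors, some body can be
translated a positive distance in some direction without penetrating the others.

Idea. Suppose all five bodies `K i` are blocked. Separating planes for all pairs give, for each `i`,
a circumscribed simplex with four facet planes, one for each other body, and all pairs of bodies
touch, say at `p e` for the edge `e = {k, l}`. For the three bodies `i` not in `e` exactly one
barycentric coordinate of `p e` with respect to the simplex of `i` is positive, and these three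
choices form a 3-cycle. So `p e` together with the simplex of `i` pushes one vertex of that simplex
into the inside of a segment: the vertex is not an extreme point of any convex set that contains
both. A finite check over the orientations of the ten 3-cycles shows that for some pair of bodies
`i`, `x` and some contact point `p e0` of two other bodies at least six of the nine points (eight
vertices and `p e0`) are not extreme in their convex hull. Then this hull has at most three extreme
points, so it has empty interior, which is absurd.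
-/

set_option autoImplicit false

open Set Metric
open scoped RealInnerProductSpace

namespace Pool.Agent.Results.MP_0aa80c_co.FiveBodies

/-- Euclidean 3-space. -/
abbrev E := EuclideanSpace ℝ (Fin 3)

/-! ### Four half-spaces whose normals positively span -/

lemma phi_bij (G : Fin 4 → E) (hpos : ∀ v : E, v ≠ 0 → ∃ l, 0 < ⟪G l, v⟫) (k : Fin 4) :
    Function.Bijective (LinearMap.pi (fun m : Fin 3 => innerₛₗ ℝ (G (k.succAbove m))) :
      E →ₗ[ℝ] (Fin 3 → ℝ)) := by
  have hinj : Function.Injective (LinearMap.pi (fun m : Fin 3 => innerₛₗ ℝ (G (k.succAbove m))) :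
      E →ₗ[ℝ] (Fin 3 → ℝ)) := by
    rw [← LinearMap.ker_eq_bot, LinearMap.ker_eq_bot']
    intro v hv
    by_contra hne
    have hz : ∀ l, l ≠ k → ⟪G l, v⟫ = 0 := by
      intro l hl
      obtain ⟨m, rfl⟩ := Fin.exists_succAbove_eq hl
      have := congrFun hv m
      simpa using this
    obtain ⟨l1, h1⟩ := hpos v hne
    obtain ⟨l2, h2⟩ := hpos (-v) (neg_ne_zero.mpr hne)
    have e1 : l1 = k := by
      by_contra h
      rw [hz l1 h] at h1
      exact lt_irrefl _ h1
    have e2 : l2 = k := by
      by_contra h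
      rw [inner_neg_right, hz l2 h] at h2
      simp at h2
    subst e1
    rw [e2, inner_neg_right] at h2
    linarith
  refine ⟨hinj, ?_⟩
  exact (LinearMap.injective_iff_surjective_of_finrank_eq_finrank (by simp)).mp hinj

lemma exists_dir (G : Fin 4 → E) (hpos : ∀ v : E, v ≠ 0 → ∃ l, 0 < ⟪G l, v⟫) (k : Fin 4)
    (c : Fin 4 → ℝ) : ∃ v : E, ∀ l, l ≠ k → ⟪G l, v⟫ = c l := by
  obtain ⟨v, hv⟩ := (phi_bij G hpos k).2 (fun m => c (k.succAbove m))
  refine ⟨v, fun l hl => ?_⟩
  obtain ⟨m, rfl⟩ := Fin.exists_succAbove_eq hl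
  have := congrFun hv m
  simpa using this

lemma simplex4 (G : Fin 4 → E) (U : Fin 4 → ℝ) (hpos : ∀ v : E, v ≠ 0 → ∃ l, 0 < ⟪G l, v⟫)
    (x0 : E) (hx0 : ∀ l, ⟪G l, x0⟫ < U l) :
    ∃ (w : Fin 4 → ℝ) (V : Fin 4 → E), (∀ l, 0 < w l) ∧
      (∀ x : E, ∑ l, w l * (U l - ⟪G l, x⟫) = 1) ∧
      (∀ k l, l ≠ k → ⟪G l, V k⟫ = U l) ∧
      (∀ x : E, x = ∑ l, (w l * (U l - ⟪G l, x⟫)) • V l) := by
  choose v hv using fun k => exists_dir G hpos k (fun _ => -1)
  have hvpos : ∀ k, 0 < ⟪G k, v k⟫ := by
    intro k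
    have hne : v k ≠ 0 := by
      intro h0
      obtain ⟨l, hl⟩ : ∃ l, l ≠ k := exists_ne k
      have := hv k l hl
      rw [h0, inner_zero_right] at this
      norm_num at this
    obtain ⟨l, hl⟩ := hpos (v k) hne
    by_cases h : l = k
    · rwa [h] at hl
    · rw [hv k l h] at hl
      norm_num at hl
  have hnli : ¬ LinearIndependent ℝ G := by
    intro h
    have := h.fintype_card_le_finrank
    simp at this
  rw [Fintype.not_linearIndependent_iff] at hnli
  obtain ⟨g, hg, l0, hl0⟩ := hnli
  set S := ∑ l, g l with hS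
  have hgk : ∀ k, g k * (⟪G k, v k⟫ + 1) = S := by
    intro k
    have h1 : ∑ l, g l * ⟪G l, v k⟫ = 0 := by
      have h2 : ⟪∑ l, g l • G l, v k⟫ = 0 := by rw [hg, inner_zero_left]
      simpa [sum_inner, real_inner_smul_left] using h2
    rw [Fin.sum_univ_succAbove _ k] at h1
    have h3 : ∑ m, g (k.succAbove m) * ⟪G (k.succAbove m), v k⟫ = - ∑ m, g (k.succAbove m) := by
      rw [← Finset.sum_neg_distrib]
      refine Finset.sum_congr rfl fun m _ => ?_
      rw [hv k _ (Fin.succAbove_ne k m)]
      ring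
    rw [h3] at h1
    rw [hS, Fin.sum_univ_succAbove _ k]
    linarith
  have hS0 : S ≠ 0 := by
    intro h
    have := hgk l0
    rw [h] at this
    have h2 := hvpos l0
    rcases mul_eq_zero.mp this with h3 | h3
    · exact hl0 h3
    · linarith
  set w' : Fin 4 → ℝ := fun l => g l / S with hw'
  have hw'pos : ∀ l, 0 < w' l := by
    intro l
    have h1 : w' l * (⟪G l, v l⟫ + 1) = 1 := by
      rw [hw']
      have := hgk l
      field_simp
      exact this
    have h2 := hvpos l
    by_contra h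
    push Not at h
    nlinarith
  have hw'sum : ∀ x : E, ∑ l, w' l * ⟪G l, x⟫ = 0 := by
    intro x
    have h1 : ∑ l, g l * ⟪G l, x⟫ = 0 := by
      have h2 : ⟪∑ l, g l • G l, x⟫ = 0 := by rw [hg, inner_zero_left]
      simpa [sum_inner, real_inner_smul_left] using h2
    have h3 : ∑ l, w' l * ⟪G l, x⟫ = (∑ l, g l * ⟪G l, x⟫) / S := by
      rw [Finset.sum_div]
      exact Finset.sum_congr rfl fun l _ => by simp [hw']; ring
    rw [h3, h1, zero_div]
  set c := ∑ l, w' l * U l with hc
  have hcpos : 0 < c := by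
    have h1 : c = ∑ l, w' l * (U l - ⟪G l, x0⟫) := by
      simp only [mul_sub, Finset.sum_sub_distrib, hw'sum x0, sub_zero, hc]
    rw [h1]
    exact Finset.sum_pos (fun l _ => mul_pos (hw'pos l) (by linarith [hx0 l])) Finset.univ_nonempty
  have hsum : ∀ x : E, ∑ l, w' l / c * (U l - ⟪G l, x⟫) = 1 := by
    intro x
    have h1 : ∑ l, w' l / c * (U l - ⟪G l, x⟫) = (∑ l, w' l * (U l - ⟪G l, x⟫)) / c := by
      rw [Finset.sum_div]
      exact Finset.sum_congr rfl fun l _ => by ring
    rw [h1]
    simp only [mul_sub, Finset.sum_sub_distrib, hw'sum x, sub_zero]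
    rw [← hc]
    field_simp
  choose V hV using fun k => exists_dir G hpos k U
  refine ⟨fun l => w' l / c, V, fun l => div_pos (hw'pos l) hcpos, hsum, fun k l h => hV k l h, ?_⟩
  intro x
  have hVV : ∀ l, w' l / c * (U l - ⟪G l, V l⟫) = 1 := by
    intro l
    have h1 := hsum (V l)
    rw [Fin.sum_univ_succAbove _ l] at h1
    have h2 : ∑ m, w' (l.succAbove m) / c * (U (l.succAbove m) - ⟪G (l.succAbove m), V l⟫) = 0 := by
      refine Finset.sum_eq_zero fun m _ => ?_
      rw [hV l _ (Fin.succAbove_ne l m)]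
      ring
    rw [h2, add_zero] at h1
    exact h1
  apply (phi_bij G hpos 0).1
  ext m
  simp only [LinearMap.pi_apply, innerₛₗ_apply_apply]
  set l := (0 : Fin 4).succAbove m
  rw [inner_sum]
  have h1 : ∀ k, ⟪G l, (w' k / c * (U k - ⟪G k, x⟫)) • V k⟫ =
      (w' k / c * (U k - ⟪G k, x⟫)) * U l - (if k = l then (U l - ⟪G l, x⟫) else 0) := by
    intro k
    rw [inner_smul_right]
    by_cases h : k = l
    · rw [h, if_pos rfl]
      have e1 := hVV l
      have e2 := hw'pos l
      have e3 : w' l / c * (U l - ⟪G l, x⟫) * ⟪G l, V l⟫ =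
          w' l / c * (U l - ⟪G l, x⟫) * U l -
            (w' l / c * (U l - ⟪G l, V l⟫)) * (U l - ⟪G l, x⟫) := by ring
      rw [e3, e1, one_mul]
    · rw [hV k l (Ne.symm h)]
      simp [h]
  rw [Finset.sum_congr rfl fun k _ => h1 k, Finset.sum_sub_distrib, ← Finset.sum_mul, hsum x]
  simp

/-! ### Combinatorics of the ten contact points

Edges of the complete graph on `Fin 5` are numbered by `Fin 10`; `P1 e`, `P2 e` are the end points
and `T e` lists the three other vertices. -/

/-- First end point of an edge. -/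
def P1 : Fin 10 → Fin 5 := ![0, 0, 0, 0, 1, 1, 1, 2, 2, 3]
/-- Second end point of an edge. -/
def P2 : Fin 10 → Fin 5 := ![1, 2, 3, 4, 2, 3, 4, 3, 4, 4]
/-- The three vertices off an edge. -/
def T : Fin 10 → Fin 3 → Fin 5 :=
  ![![2, 3, 4], ![1, 3, 4], ![1, 2, 4], ![1, 2, 3], ![0, 3, 4], ![0, 2, 4], ![0, 2, 3],
    ![0, 1, 4], ![0, 1, 3], ![0, 1, 2]]
/-- Number of the edge joining two vertices. -/
def Ed : Fin 5 → Fin 5 → Fin 10 :=
  ![![0, 0, 1, 2, 3], ![0, 0, 4, 5, 6], ![1, 4, 0, 7, 8], ![2, 5, 7, 0, 9], ![3, 6, 8, 9, 0]]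

/-- Shift on the three vertices off an edge. -/
def sh (b : Bool) : Fin 3 := if b then 1 else 2

/-- Position of `x` in `T e`. -/
def pos (e : Fin 10) (x : Fin 5) : Fin 3 := if T e 0 = x then 0 else if T e 1 = x then 1 else 2

/-- The covered vertex of body `x` at the contact point `e`. -/
def N (c : Fin 10 → Bool) (e : Fin 10) (x : Fin 5) : Fin 5 := T e (pos e x + sh (c e))

/-- The vertices of body `x` covered by the contact points of body `i` and by `e0`. -/
def S (c : Fin 10 → Bool) (i x : Fin 5) (e0 : Fin 10) : Finset (Fin 5) :=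
  insert (N c e0 x) ((Finset.univ.filter fun j => j ≠ i ∧ j ≠ x).image fun j => N c (Ed i j) x)

lemma comb_aux : ∀ c0 c1 c2 c3 c4 c5 c6 c7 c8 c9 : Bool, ∃ i x : Fin 5, ∃ e0 : Fin 10,
    i ≠ x ∧ T e0 (pos e0 i) = i ∧ T e0 (pos e0 x) = x ∧
    ((Finset.univ.erase i) \ S ![c0, c1, c2, c3, c4, c5, c6, c7, c8, c9] x i e0).card +
    ((Finset.univ.erase x) \ S ![c0, c1, c2, c3, c4, c5, c6, c7, c8, c9] i x e0).card ≤ 2 := by
  decide +kernel

lemma comb (c : Fin 10 → Bool) : ∃ i x : Fin 5, ∃ e0 : Fin 10,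
    i ≠ x ∧ T e0 (pos e0 i) = i ∧ T e0 (pos e0 x) = x ∧
    ((Finset.univ.erase i) \ S c x i e0).card + ((Finset.univ.erase x) \ S c i x e0).card ≤ 2 := by
  have h := comb_aux (c 0) (c 1) (c 2) (c 3) (c 4) (c 5) (c 6) (c 7) (c 8) (c 9)
  have hc : ![c 0, c 1, c 2, c 3, c 4, c 5, c 6, c 7, c 8, c 9] = c := by
    ext e; fin_cases e <;> rfl
  rwa [hc] at h

/-! ### The abstract contradiction -/

/-- A vertex lying strictly inside a segment of `C` is not an extreme point of `C`. -/
lemma not_extreme (b : Fin 5 → Fin 5 → E → ℝ) (V : Fin 5 → Fin 5 → E)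
    (ha : ∀ i x, ∑ j, b i j x = 1) (hb : ∀ i x, x = ∑ j, b i j x • V i j)
    (hc : ∀ i j k, j ≠ i → k ≠ j → b i k (V i j) = 0) (hd : ∀ i x, b i i x = 0)
    (C : Set E) (hC : Convex ℝ C) (i j0 : Fin 5) (q : E) (hq : q ∈ C)
    (hV : ∀ k, k ≠ i → V i k ∈ C) (hj0 : j0 ≠ i) (h1 : 0 < b i j0 q)
    (h2 : ∀ k, k ≠ j0 → b i k q ≤ 0) (m : Fin 5) (hm : m ≠ j0) (h3 : b i m q < 0) :
    V i j0 ∉ C.extremePoints ℝ := by
  intro hext
  rw [mem_extremePoints] at hext
  obtain ⟨-, hext⟩ := hext
  -- total weight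
  have hsum := ha i q
  rw [← Finset.add_sum_erase _ _ (Finset.mem_univ j0)] at hsum
  have hneg : ∑ k ∈ Finset.univ.erase j0, b i k q < 0 := by
    refine Finset.sum_neg' (fun k hk => h2 k (Finset.ne_of_mem_erase hk)) ?_
    exact ⟨m, Finset.mem_erase.mpr ⟨hm, Finset.mem_univ _⟩, h3⟩
  set B := b i j0 q with hB
  have hB1 : 1 < B := by linarith
  set t : E := ∑ k ∈ (Finset.univ.erase j0).erase i, (-(b i k q) / (B - 1)) • V i k with ht
  have hii : i ∈ Finset.univ.erase j0 := Finset.mem_erase.mpr ⟨Ne.symm hj0, Finset.mem_univ _⟩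
  have hsum2 : ∑ k ∈ (Finset.univ.erase j0).erase i, b i k q = 1 - B := by
    have := Finset.add_sum_erase _ (fun k => b i k q) hii
    simp only [hd i q, zero_add] at this
    linarith
  have htC : t ∈ C := by
    refine hC.sum_mem ?_ ?_ ?_
    · intro k hk
      have := h2 k (Finset.ne_of_mem_erase (Finset.mem_of_mem_erase hk))
      exact div_nonneg (by linarith) (by linarith)
    · rw [← Finset.sum_div, Finset.sum_neg_distrib, hsum2]
      have : B - 1 ≠ 0 := by linarith
      field_simp
      ring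
    · intro k hk
      exact hV k (Finset.ne_of_mem_erase hk)
  have hqexp : q = B • V i j0 + ∑ k ∈ (Finset.univ.erase j0).erase i, b i k q • V i k := by
    have h := hb i q
    rw [← Finset.add_sum_erase _ _ (Finset.mem_univ j0),
      ← Finset.add_sum_erase _ (fun k => b i k q • V i k) hii] at h
    rw [hd i q, zero_smul, zero_add] at h
    exact h
  have htq : (B - 1) • t = B • V i j0 - q := by
    have hne : B - 1 ≠ 0 := by linarith
    have h4 : (B - 1) • t = - ∑ k ∈ (Finset.univ.erase j0).erase i, b i k q • V i k := by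
      rw [ht, Finset.smul_sum, ← Finset.sum_neg_distrib]
      refine Finset.sum_congr rfl fun k _ => ?_
      rw [smul_smul, ← neg_smul]
      congr 1
      field_simp
    rw [h4]
    nth_rewrite 2 [hqexp]
    abel
  have hseg : V i j0 ∈ openSegment ℝ q t := by
    refine ⟨1 / B, (B - 1) / B, by positivity, div_pos (by linarith) (by linarith), ?_, ?_⟩
    · field_simp
      ring
    · have h5 : ((B - 1) / B) • t = (1 / B) • ((B - 1) • t) := by
        rw [smul_smul]; congr 1; ring
      rw [h5, htq, smul_sub, smul_smul]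
      have : 1 / B * B = 1 := by field_simp
      rw [this, one_smul]
      abel
  have := (hext q hq t htC hseg).1
  rw [this, hc i j0 m hj0 hm] at h3
  exact lt_irrefl _ h3

lemma cover5 : ∀ (e : Fin 10) (a : Fin 3) (s : Bool) (k : Fin 5), k = P1 e ∨ k = P2 e ∨ k = T e a ∨
    k = T e (a + sh s) ∨ k = T e (a + sh (!s)) := by decide +kernel

lemma T_ne : ∀ (e : Fin 10) (a : Fin 3) (s : Bool), T e (a + sh s) ≠ T e a ∧
    T e (a + sh (!s)) ≠ T e (a + sh s) := by decide +kernel

lemma T_ne_P : ∀ (e : Fin 10) (a : Fin 3), P1 e ≠ T e a ∧ P2 e ≠ T e a := by decide +kernel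

lemma Ed_spec : ∀ i j x : Fin 5, j ≠ i → j ≠ x → i ≠ x →
    (P1 (Ed i j) = i ∨ P2 (Ed i j) = i) ∧ T (Ed i j) (pos (Ed i j) x) = x := by decide +kernel

lemma card_bound (K : Set E) (R : Finset E) (hR : R.card ≤ 3) (hK : (interior K).Nonempty)
    (hsub : K ⊆ closure (convexHull ℝ (R : Set E))) : False := by
  have hcl : closure (convexHull ℝ (R : Set E)) = convexHull ℝ (R : Set E) :=
    (R.finite_toSet.isCompact_convexHull (𝕜 := ℝ)).isClosed.closure_eq
  rw [hcl] at hsub
  have hne : (interior (convexHull ℝ (R : Set E))).Nonempty := hK.mono (interior_mono hsub)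
  rw [interior_convexHull_nonempty_iff_affineSpan_eq_top] at hne
  have hRne : R.Nonempty := by
    by_contra h
    rw [Finset.not_nonempty_iff_eq_empty] at h
    subst h
    simp at hne
  have : Nonempty R := hRne.to_subtype
  have h1 := finrank_vectorSpan_range_add_one_le ℝ (fun x : R => (x : E))
  have h2 : Set.range (fun x : R => (x : E)) = (R : Set E) := by simp
  rw [h2, Fintype.card_coe] at h1
  have h3 : vectorSpan ℝ (R : Set E) = ⊤ := by
    rw [← direction_affineSpan, hne, AffineSubspace.direction_top]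
  rw [h3, finrank_top] at h1
  simp at h1
  omega

lemma abstract_false (K : Fin 5 → Set E) (hint : ∀ i, (interior (K i)).Nonempty)
    (b : Fin 5 → Fin 5 → E → ℝ) (V : Fin 5 → Fin 5 → E)
    (ha : ∀ i x, ∑ j, b i j x = 1) (hb : ∀ i x, x = ∑ j, b i j x • V i j)
    (hc : ∀ i j k, j ≠ i → k ≠ j → b i k (V i j) = 0) (hd : ∀ i x, b i i x = 0)
    (he : ∀ i j x, i ≠ j → 0 < b i j x → b j i x < 0)
    (he' : ∀ i j x, i ≠ j → 0 ≤ b i j x → b j i x ≤ 0)
    (hf : ∀ i j x, x ∈ K i → 0 ≤ b i j x)
    (p : Fin 10 → E) (hp : ∀ e, p e ∈ K (P1 e) ∧ p e ∈ K (P2 e)) : False := by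
  classical
  -- the signs of the barycentric coordinates of `p e` with respect to the other three simplices
  have hP1 : ∀ e a, b (T e a) (P1 e) (p e) ≤ 0 := fun e a =>
    he' (P1 e) (T e a) (p e) (T_ne_P e a).1 (hf _ _ _ (hp e).1)
  have hP2 : ∀ e a, b (T e a) (P2 e) (p e) ≤ 0 := fun e a =>
    he' (P2 e) (T e a) (p e) (T_ne_P e a).2 (hf _ _ _ (hp e).2)
  have hsum : ∀ e a, 1 ≤ b (T e a) (T e (a + 1)) (p e) + b (T e a) (T e (a + 2)) (p e) := by
    intro e a
    have h1 := ha (T e a) (p e)
    have h2 := hP1 e a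
    have h3 := hP2 e a
    have h4 := hd (T e a) (p e)
    rw [Fin.sum_univ_five] at h1
    fin_cases e <;> fin_cases a <;> simp [T, P1, P2] at h1 h2 h3 h4 ⊢ <;> linarith
  set c : Fin 10 → Bool := fun e => decide (0 < b (T e 0) (T e 1) (p e)) with hcdef
  have hcyc : ∀ e a, 0 < b (T e a) (T e (a + sh (c e))) (p e) ∧
      b (T e a) (T e (a + sh (!c e))) (p e) < 0 := by
    intro e
    have s0 := hsum e 0
    have s1 := hsum e 1
    have s2 := hsum e 2
    have n01 : T e 0 ≠ T e 1 := by
      have := (T_ne e 0 true).1; simpa [sh] using this.symm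
    have n12 : T e 1 ≠ T e 2 := by
      have := (T_ne e 1 true).1; simpa [sh] using this.symm
    have n02 : T e 0 ≠ T e 2 := by
      have := (T_ne e 0 false).1; simpa [sh] using this.symm
    have q1 : (1 : Fin 3) + 2 = 0 := by decide
    have q2 : (2 : Fin 3) + 1 = 0 := by decide
    have q3 : (2 : Fin 3) + 2 = 1 := by decide
    have q4 : (1 : Fin 3) + 1 = 2 := by decide
    rw [zero_add, zero_add] at s0
    rw [q4, q1] at s1
    rw [q2, q3] at s2
    by_cases h : 0 < b (T e 0) (T e 1) (p e)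
    · have hce : c e = true := by simp [hcdef, h]
      have h10 := he _ _ _ n01 h
      have h12 : 0 < b (T e 1) (T e 2) (p e) := by linarith
      have h21 := he _ _ _ n12 h12
      have h20 : 0 < b (T e 2) (T e 0) (p e) := by linarith
      have h02 := he _ _ _ n02.symm h20
      intro a
      rw [hce]
      fin_cases a
      · exact ⟨by simpa [sh] using h, by simpa [sh] using h02⟩
      · exact ⟨by simpa [sh, q4] using h12, by simpa [sh, q1] using h10⟩
      · exact ⟨by simpa [sh, q2] using h20, by simpa [sh, q3] using h21⟩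
    · have hce : c e = false := by simp [hcdef, h]
      push Not at h
      have h02 : 0 < b (T e 0) (T e 2) (p e) := by linarith
      have h20 := he _ _ _ n02 h02
      have h21 : 0 < b (T e 2) (T e 1) (p e) := by linarith
      have h12 := he _ _ _ n12.symm h21
      have h10 : 0 < b (T e 1) (T e 0) (p e) := by linarith
      have h01 := he _ _ _ n01.symm h10
      intro a
      rw [hce]
      fin_cases a
      · exact ⟨by simpa [sh] using h02, by simpa [sh] using h01⟩
      · exact ⟨by simpa [sh, q1] using h10, by simpa [sh, q4] using h12⟩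
      · exact ⟨by simpa [sh, q3] using h21, by simpa [sh, q2] using h20⟩
  -- covering
  have hcov : ∀ (C : Set E) (e : Fin 10) (x : Fin 5), Convex ℝ C → T e (pos e x) = x → p e ∈ C →
      (∀ k, k ≠ x → V x k ∈ C) → V x (N c e x) ∉ C.extremePoints ℝ := by
    intro C e x hC hx hpC hVC
    have h := hcyc e (pos e x)
    have hn := T_ne e (pos e x) (c e)
    rw [hx] at h hn
    refine not_extreme b V ha hb hc hd C hC x (N c e x) (p e) hpC hVC hn.1 h.1 ?_
      (T e (pos e x + sh (!c e))) hn.2 h.2
    intro k hk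
    rcases cover5 e (pos e x) (c e) k with h5 | h5 | h5 | h5 | h5
    · have := hP1 e (pos e x)
      rw [hx, ← h5] at this
      exact this
    · have := hP2 e (pos e x)
      rw [hx, ← h5] at this
      exact this
    · rw [hx] at h5
      rw [h5, hd]
    · exact absurd h5 hk
    · rw [h5]
      exact h.2.le
  obtain ⟨i, x, e0, hix, hi, hx, hcard⟩ := comb c
  set W : Finset E := ((Finset.univ.erase i).image (V i)) ∪ ((Finset.univ.erase x).image (V x)) ∪
    {p e0} with hW
  set R : Finset E := (((Finset.univ.erase i) \ S c x i e0).image (V i)) ∪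
    (((Finset.univ.erase x) \ S c i x e0).image (V x)) ∪ {p e0} with hR
  set C : Set E := convexHull ℝ (W : Set E) with hC
  have hCc : Convex ℝ C := convex_convexHull _ _
  have hVi : ∀ k, k ≠ i → V i k ∈ C := by
    intro k hk
    refine subset_convexHull ℝ _ ?_
    rw [hW]
    simp only [Finset.coe_union, Finset.coe_image, Set.mem_union, Set.mem_image]
    exact Or.inl (Or.inl ⟨k, by simp [hk], rfl⟩)
  have hVx : ∀ k, k ≠ x → V x k ∈ C := by
    intro k hk
    refine subset_convexHull ℝ _ ?_
    rw [hW]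
    simp only [Finset.coe_union, Finset.coe_image, Set.mem_union, Set.mem_image]
    exact Or.inl (Or.inr ⟨k, by simp [hk], rfl⟩)
  have hpe0 : p e0 ∈ C := subset_convexHull ℝ _ (by rw [hW]; simp)
  have hKC : ∀ y, (∀ k, k ≠ y → V y k ∈ C) → K y ⊆ C := by
    intro y hVy z hz
    rw [hb y z]
    have h1 : ∑ j, b y j z • V y j = ∑ j ∈ Finset.univ.erase y, b y j z • V y j := by
      rw [← Finset.add_sum_erase _ _ (Finset.mem_univ y), hd, zero_smul, zero_add]
    rw [h1]
    refine hCc.sum_mem (fun k _ => hf y k z hz) ?_ (fun k hk => hVy k (Finset.ne_of_mem_erase hk))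
    have h2 := ha y z
    rw [← Finset.add_sum_erase _ _ (Finset.mem_univ y), hd, zero_add] at h2
    exact h2
  have hKi := hKC i hVi
  have hKx := hKC x hVx
  have hSx : ∀ k ∈ S c i x e0, V x k ∉ C.extremePoints ℝ := by
    intro k hk
    rw [S, Finset.mem_insert, Finset.mem_image] at hk
    rcases hk with rfl | ⟨j, hj, rfl⟩
    · exact hcov C e0 x hCc hx hpe0 hVx
    · rw [Finset.mem_filter] at hj
      have hs := Ed_spec i j x hj.2.1 hj.2.2 hix
      refine hcov C (Ed i j) x hCc hs.2 ?_ hVx
      rcases hs.1 with h | h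
      · have h' := (hp (Ed i j)).1
        rw [h] at h'
        exact hKi h'
      · have h' := (hp (Ed i j)).2
        rw [h] at h'
        exact hKi h'
  have hSi : ∀ k ∈ S c x i e0, V i k ∉ C.extremePoints ℝ := by
    intro k hk
    rw [S, Finset.mem_insert, Finset.mem_image] at hk
    rcases hk with rfl | ⟨j, hj, rfl⟩
    · exact hcov C e0 i hCc hi hpe0 hVi
    · rw [Finset.mem_filter] at hj
      have hs := Ed_spec x j i hj.2.1 hj.2.2 hix.symm
      refine hcov C (Ed x j) i hCc hs.2 ?_ hVi
      rcases hs.1 with h | h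
      · have h' := (hp (Ed x j)).1
        rw [h] at h'
        exact hKx h'
      · have h' := (hp (Ed x j)).2
        rw [h] at h'
        exact hKx h'
  have hext : C.extremePoints ℝ ⊆ (R : Set E) := by
    intro y hy
    have hyW : y ∈ (W : Set E) := extremePoints_convexHull_subset hy
    rw [hW] at hyW
    simp only [Finset.coe_union, Finset.coe_image, Set.mem_union, Set.mem_image,
      Finset.coe_singleton, Set.mem_singleton_iff] at hyW
    rw [hR]
    simp only [Finset.coe_union, Finset.coe_image, Set.mem_union, Set.mem_image,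
      Finset.coe_singleton, Set.mem_singleton_iff]
    rcases hyW with (⟨k, hk, rfl⟩ | ⟨k, hk, rfl⟩) | rfl
    · refine Or.inl (Or.inl ⟨k, ?_, rfl⟩)
      rw [Finset.mem_coe] at hk ⊢
      exact Finset.mem_sdiff.mpr ⟨hk, fun h => hSi k h hy⟩
    · refine Or.inl (Or.inr ⟨k, ?_, rfl⟩)
      rw [Finset.mem_coe] at hk ⊢
      exact Finset.mem_sdiff.mpr ⟨hk, fun h => hSx k h hy⟩
    · exact Or.inr rfl
  have hRcard : R.card ≤ 3 := by
    rw [hR]
    refine (Finset.card_union_le _ _).trans ?_
    have h1 := (Finset.card_union_le (((Finset.univ.erase i) \ S c x i e0).image (V i))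
      (((Finset.univ.erase x) \ S c i x e0).image (V x)))
    have h2 := Finset.card_image_le (s := (Finset.univ.erase i) \ S c x i e0) (f := V i)
    have h3 := Finset.card_image_le (s := (Finset.univ.erase x) \ S c i x e0) (f := V x)
    rw [Finset.card_singleton]
    omega
  have hCcomp : IsCompact C := (W.finite_toSet.isCompact_convexHull (𝕜 := ℝ))
  have hKM := closure_convexHull_extremePoints hCcomp hCc
  refine card_bound (K i) R hRcard (hint i) ?_
  calc K i ⊆ C := hKi
    _ = closure (convexHull ℝ (C.extremePoints ℝ)) := hKM.symm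
    _ ⊆ closure (convexHull ℝ (R : Set E)) := closure_mono (convexHull_mono hext)

/-! ### From blocked bodies to the abstract system -/

lemma exists_sep (A B : Set E) (hA : Convex ℝ A) (hB : Convex ℝ B)
    (hdis : Disjoint (interior A) (interior B)) :
    ∃ (n : E) (u : ℝ), (∀ x ∈ interior A, ⟪n, x⟫ < u) ∧ (∀ x ∈ interior B, u < ⟪n, x⟫) := by
  obtain ⟨f, u, h1, h2⟩ := geometric_hahn_banach_open_open hA.interior isOpen_interior
    hB.interior isOpen_interior hdis
  refine ⟨(InnerProductSpace.toDual ℝ E).symm f, u, ?_, ?_⟩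
  · intro x hx
    rw [InnerProductSpace.toDual_symm_apply]
    exact h1 x hx
  · intro x hx
    rw [InnerProductSpace.toDual_symm_apply]
    exact h2 x hx

lemma exists_sep_family (K : Fin 5 → Set E) (hconv : ∀ i, Convex ℝ (K i))
    (hdis : ∀ i j, i ≠ j → Disjoint (interior (K i)) (interior (K j))) :
    ∃ (n : Fin 5 → Fin 5 → E) (u : Fin 5 → Fin 5 → ℝ),
      (∀ i j, n j i = - n i j) ∧ (∀ i j, u j i = - u i j) ∧
      (∀ i j, i ≠ j → ∀ x ∈ interior (K i), ⟪n i j, x⟫ < u i j) := by
  have h : ∀ i j : Fin 5, ∃ (n : E) (u : ℝ), i ≠ j →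
      (∀ x ∈ interior (K i), ⟪n, x⟫ < u) ∧ (∀ x ∈ interior (K j), u < ⟪n, x⟫) := by
    intro i j
    by_cases hij : i = j
    · exact ⟨0, 0, fun h => absurd hij h⟩
    · obtain ⟨n, u, h1, h2⟩ := exists_sep (K i) (K j) (hconv i) (hconv j) (hdis i j hij)
      exact ⟨n, u, fun _ => ⟨h1, h2⟩⟩
  choose n' u' h' using h
  refine ⟨fun i j => if i < j then n' i j else if j < i then - n' j i else 0,
    fun i j => if i < j then u' i j else if j < i then - u' j i else 0, ?_, ?_, ?_⟩
  · intro i j
    rcases lt_trichotomy i j with h | h | h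
    · simp [h, h.not_gt]
    · simp [h]
    · simp [h, h.not_gt]
  · intro i j
    rcases lt_trichotomy i j with h | h | h
    · simp [h, h.not_gt]
    · simp [h]
    · simp [h, h.not_gt]
  · intro i j hij x hx
    rcases lt_trichotomy i j with h | h | h
    · simp only [h, if_true]
      exact (h' i j hij).1 x hx
    · exact absurd h hij
    · simp only [h, h.not_gt, if_true, if_false, inner_neg_left]
      have := (h' j i hij.symm).2 x hx
      linarith

lemma exists_gap (K : Fin 5 → Set E) (hcomp : ∀ i, IsCompact (K i)) (i : Fin 5) :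
    ∃ δ > 0, ∀ j, (∃ x ∈ K i, ∃ y ∈ K j, dist x y < δ) → (K i ∩ K j).Nonempty := by
  have h : ∀ j, ∃ δ > 0, (∃ x ∈ K i, ∃ y ∈ K j, dist x y < δ) → (K i ∩ K j).Nonempty := by
    intro j
    by_cases hne : (K i ∩ K j).Nonempty
    · exact ⟨1, one_pos, fun _ => hne⟩
    · have hd : Disjoint (K i) (K j) := by
        rw [Set.disjoint_iff_inter_eq_empty]
        exact Set.not_nonempty_iff_eq_empty.mp hne
      obtain ⟨δ, hδ, hdis⟩ := hd.exists_thickenings (hcomp i) (hcomp j).isClosed
      refine ⟨δ, hδ, ?_⟩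
      rintro ⟨x, hx, y, hy, hxy⟩
      exfalso
      have hy1 : y ∈ thickening δ (K i) := by
        rw [mem_thickening_iff]
        exact ⟨x, hx, by rwa [dist_comm]⟩
      exact (Set.disjoint_left.mp hdis) hy1 (self_subset_thickening hδ _ hy)
  choose δ hδ hh using h
  obtain ⟨j0, hj0⟩ := Finite.exists_min δ
  exact ⟨δ j0, hδ j0, fun j ⟨x, hx, y, hy, hxy⟩ =>
    hh j ⟨x, hx, y, hy, lt_of_lt_of_le hxy (hj0 j)⟩⟩

lemma interior_translate (A : Set E) (a : E) :
    interior ((fun x => x + a) '' A) = (fun x => x + a) '' interior A :=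
  ((Homeomorph.addRight a).image_interior A).symm

/-- In a family of five convex bodies with disjoint interiors not all bodies are blocked. -/
theorem five (K : Fin 5 → Set E)
    (hK : ∀ i, IsCompact (K i) ∧ Convex ℝ (K i) ∧ (interior (K i)).Nonempty)
    (hdis : ∀ i j, i ≠ j → Disjoint (interior (K i)) (interior (K j)))
    (hbl : ∀ i, ∀ v : E, ‖v‖ = 1 → ∀ ε : ℝ, 0 < ε → ∃ t : ℝ, 0 < t ∧ t < ε ∧ ∃ j, j ≠ i ∧
      ¬ Disjoint (interior ((fun x => x + t • v) '' K i)) (interior (K j))) : False := by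
  obtain ⟨n, u, hn, hu, hsep⟩ := exists_sep_family K (fun i => (hK i).2.1) hdis
  have hsep' : ∀ i j, i ≠ j → ∀ x ∈ interior (K j), u i j < ⟪n i j, x⟫ := by
    intro i j hij x hx
    have h1 := hsep j i hij.symm x hx
    rw [hn i j, hu i j, inner_neg_left] at h1
    linarith
  -- blocked directions
  have hdir : ∀ i, ∀ v : E, v ≠ 0 → ∃ j, j ≠ i ∧ 0 < ⟪n i j, v⟫ ∧ (K i ∩ K j).Nonempty := by
    intro i v hv
    have hv0 : 0 < ‖v‖ := norm_pos_iff.mpr hv
    obtain ⟨δ, hδ, hgap⟩ := exists_gap K (fun i => (hK i).1) i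
    obtain ⟨t, ht0, ht, j, hj, hnd⟩ := hbl i (‖v‖⁻¹ • v) (by
      rw [norm_smul, norm_inv, norm_norm]; field_simp) δ hδ
    rw [Set.not_disjoint_iff] at hnd
    obtain ⟨y, hy1, hy2⟩ := hnd
    rw [interior_translate] at hy1
    obtain ⟨x, hx, rfl⟩ := hy1
    refine ⟨j, hj, ?_, ?_⟩
    · have h1 := hsep i j hj.symm x hx
      have h2 := hsep' i j hj.symm _ hy2
      rw [inner_add_right, inner_smul_right, inner_smul_right] at h2
      have h3 : 0 < t * (‖v‖⁻¹ * ⟪n i j, v⟫) := by linarith
      have h4 : 0 < ‖v‖⁻¹ * ⟪n i j, v⟫ := pos_of_mul_pos_right h3 ht0.le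
      exact pos_of_mul_pos_right h4 (by positivity)
    · refine hgap j ⟨x, interior_subset hx, _, interior_subset hy2, ?_⟩
      rw [dist_eq_norm]
      have : x - (x + t • ‖v‖⁻¹ • v) = - (t • ‖v‖⁻¹ • v) := by abel
      rw [this, norm_neg, norm_smul, norm_smul, norm_inv, norm_norm, Real.norm_eq_abs,
        abs_of_pos ht0]
      have : t * (‖v‖⁻¹ * ‖v‖) = t := by field_simp
      rw [this]
      exact ht
  have hpos : ∀ i : Fin 5, ∀ v : E, v ≠ 0 → ∃ l : Fin 4, 0 < ⟪n i (i.succAbove l), v⟫ := by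
    intro i v hv
    obtain ⟨j, hj, h1, -⟩ := hdir i v hv
    obtain ⟨l, rfl⟩ := Fin.exists_succAbove_eq hj
    exact ⟨l, h1⟩
  -- contacts
  have hcontact : ∀ i j : Fin 5, j ≠ i → (K i ∩ K j).Nonempty := by
    intro i j hj
    obtain ⟨k, rfl⟩ := Fin.exists_succAbove_eq hj
    obtain ⟨v, hv⟩ := exists_dir (fun l => n i (i.succAbove l)) (hpos i) k (fun _ => -1)
    have hv0 : v ≠ 0 := by
      rintro rfl
      obtain ⟨l, hl⟩ : ∃ l, l ≠ k := exists_ne k
      have := hv l hl
      rw [inner_zero_right] at this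
      norm_num at this
    obtain ⟨j', hj', h1, h2⟩ := hdir i v hv0
    obtain ⟨l, rfl⟩ := Fin.exists_succAbove_eq hj'
    by_cases hlk : l = k
    · rwa [hlk] at h2
    · have h5 : ⟪n i (i.succAbove l), v⟫ = -1 := hv l hlk
      rw [h5] at h1
      norm_num at h1
  -- simplices
  have hsim : ∀ i : Fin 5, ∃ (w : Fin 4 → ℝ) (V : Fin 4 → E), (∀ l, 0 < w l) ∧
      (∀ x : E, ∑ l, w l * (u i (i.succAbove l) - ⟪n i (i.succAbove l), x⟫) = 1) ∧
      (∀ k l, l ≠ k → ⟪n i (i.succAbove l), V k⟫ = u i (i.succAbove l)) ∧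
      (∀ x : E, x = ∑ l, (w l * (u i (i.succAbove l) - ⟪n i (i.succAbove l), x⟫)) • V l) := by
    intro i
    obtain ⟨x0, hx0⟩ := (hK i).2.2
    exact simplex4 (fun l => n i (i.succAbove l)) (fun l => u i (i.succAbove l)) (hpos i) x0
      (fun l => hsep i _ (Fin.succAbove_ne i l).symm x0 hx0)
  choose w V hw h1 h2 h3 using hsim
  set w' : Fin 5 → Fin 5 → ℝ := fun i => i.insertNth (0 : ℝ) (w i) with hw'
  set V' : Fin 5 → Fin 5 → E := fun i => i.insertNth (0 : E) (V i) with hV'
  have w0 : ∀ i, w' i i = 0 := fun i => by simp [hw']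
  have wS : ∀ i l, w' i (i.succAbove l) = w i l := fun i l => by simp [hw']
  have VS : ∀ i l, V' i (i.succAbove l) = V i l := fun i l => by simp [hV']
  have wpos : ∀ i j, j ≠ i → 0 < w' i j := by
    intro i j hj
    obtain ⟨l, rfl⟩ := Fin.exists_succAbove_eq hj
    rw [wS]
    exact hw i l
  have hle : ∀ i j, i ≠ j → ∀ x ∈ K i, ⟪n i j, x⟫ ≤ u i j := by
    intro i j hij x hx
    have hcl : IsClosed {x : E | ⟪n i j, x⟫ ≤ u i j} := isClosed_le (by fun_prop) continuous_const
    have hsub : closure (interior (K i)) ⊆ {x : E | ⟪n i j, x⟫ ≤ u i j} :=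
      closure_minimal (fun y hy => (hsep i j hij y hy).le) hcl
    apply hsub
    rw [(hK i).2.1.closure_interior_eq_closure_of_nonempty_interior (hK i).2.2]
    exact subset_closure hx
  choose p hp using fun e : Fin 10 => hcontact (P1 e) (P2 e) (by revert e; decide)
  refine abstract_false K (fun i => (hK i).2.2)
    (fun i j x => w' i j * (u i j - ⟪n i j, x⟫)) V' ?_ ?_ ?_ ?_ ?_ ?_ ?_ p hp
  · intro i x
    rw [Fin.sum_univ_succAbove _ i, w0, zero_mul, zero_add]
    simp only [wS]
    exact h1 i x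
  · intro i x
    rw [Fin.sum_univ_succAbove _ i, w0, zero_mul, zero_smul, zero_add]
    simp only [wS, VS]
    exact h3 i x
  · intro i j k hj hk
    by_cases hki : k = i
    · simp only [hki, w0, zero_mul]
    · obtain ⟨l, rfl⟩ := Fin.exists_succAbove_eq hki
      obtain ⟨m, rfl⟩ := Fin.exists_succAbove_eq hj
      have hlm : l ≠ m := fun h => hk (by rw [h])
      simp only [VS]
      rw [h2 i m l hlm, sub_self, mul_zero]
  · intro i x
    simp only [w0, zero_mul]
  · intro i j x hij h
    have e1 := wpos i j hij.symm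
    have e2 := wpos j i hij
    have e3 : 0 < u i j - ⟪n i j, x⟫ := pos_of_mul_pos_right h e1.le
    simp only [hn i j, hu i j, inner_neg_left]
    have : w' j i * (-u i j - -⟪n i j, x⟫) = - (w' j i * (u i j - ⟪n i j, x⟫)) := by ring
    rw [this]
    have := mul_pos e2 e3
    linarith
  · intro i j x hij h
    have e1 := wpos i j hij.symm
    have e2 := wpos j i hij
    have e3 : 0 ≤ u i j - ⟪n i j, x⟫ := nonneg_of_mul_nonneg_right h e1
    simp only [hn i j, hu i j, inner_neg_left]
    have : w' j i * (-u i j - -⟪n i j, x⟫) = - (w' j i * (u i j - ⟪n i j, x⟫)) := by ring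
    rw [this]
    have := mul_nonneg e2.le e3
    linarith
  · intro i j x hx
    by_cases hij : i = j
    · subst hij
      simp only [w0, zero_mul, le_refl]
    · have e1 := wpos i j (Ne.symm hij)
      have e2 := hle i j hij x hx
      exact mul_nonneg e1.le (by linarith)

/-- **Main theorem.** In every non-overlapping family of five convex bodies in 3-space at least one
body can be translated some positive distance in some direction (the unit vector `v`) without its
interior meeting the interior of any other body. -/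
theorem result (K : Fin 5 → Set (EuclideanSpace ℝ (Fin 3)))
    (hK : ∀ i, IsCompact (K i) ∧ Convex ℝ (K i) ∧ (interior (K i)).Nonempty)
    (hdis : ∀ i j, i ≠ j → Disjoint (interior (K i)) (interior (K j))) :
    ∃ i, ∃ v : EuclideanSpace ℝ (Fin 3), ‖v‖ = 1 ∧ ∃ ε : ℝ, 0 < ε ∧
      ∀ t : ℝ, 0 < t → t < ε → ∀ j, j ≠ i →
        Disjoint (interior ((fun x => x + t • v) '' K i)) (interior (K j)) := by
  by_contra hcon
  push Not at hcon
  refine five K hK hdis ?_
  intro i v hv ε hε
  obtain ⟨t, ht0, ht, j, hj, hnd⟩ := hcon i v hv ε hε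
  exact ⟨t, ht0, ht, j, hj, hnd⟩

end Pool.Agent.Results.MP_0aa80c_co.FiveBodies
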